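import Mathlib
import Pool.Agent.Hhelper97.Sturm.Final

/-!
Sturmian Hamiltonians at coupling larger than 4: for every such coupling there are two irrationals
whose continued fractions differ only in the first digit (6 against 1) and whose spectra are not
diffeomorphic; not even a Lipschitz map of the one spectrum onto the other exists.
-/

set_option autoImplicit false

open scoped ENNReal

namespace Pool.Agent.Results.MP_8e2a40_mp.LargeCoupling

/-- The Hilbert space of square summable complex sequences on the integers. -/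
abbrev Ell2 : Type := lp (fun _ : ℤ => ℂ) 2

/-- The bounded linear operators on `Ell2`. -/
abbrev Op : Type := Ell2 →L[ℂ] Ell2

/-- The Sturmian potential: `lam` at the integers `n` with `n γ + θ` mod 1 in `[1 - γ, 1)`, and 0
at the others. -/
noncomputable def potential (lam γ θ : ℝ) (n : ℤ) : ℝ :=
  if Int.fract ((n : ℝ) * γ + θ) ∈ Set.Ico (1 - γ) 1 then lam else 0

/-- The entry of the sequence `u` at the place `n`. -/
def entry (u : Ell2) (n : ℤ) : ℂ := u n

/-- A bounded operator `H` on `Ell2` is the Sturmian Hamiltonian with coupling `lam`, frequency `γ`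
and phase `θ`. -/
def IsSturmian (lam γ θ : ℝ) (H : Op) : Prop :=
  ∀ (u : Ell2) (n : ℤ), entry (H u) n =
    entry u (n + 1) + entry u (n - 1) + (potential lam γ θ n : ℂ) * entry u n

/-- The real points of the spectrum of a bounded operator `H`: the real `E` for which `H - E` has no
bounded two-sided inverse `B` (Sturmian Hamiltonians are self-adjoint, so this is their whole
spectrum). -/
def realSpectrum (H : Op) : Set ℝ :=
  {E | ¬ ∃ B : Op, ∀ u : Ell2, B (H u - (E : ℂ) • u) = u ∧ H (B u) - (E : ℂ) • B u = u}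

lemma mem_realSpectrum (H : Op) (E : ℝ) : E ∈ realSpectrum H ↔ (E : ℂ) ∈ spectrum ℂ H := by
  unfold realSpectrum
  rw [Set.mem_ofPred_eq, spectrum.mem_iff, not_iff_not]
  have h1 : IsUnit (algebraMap ℂ (Ell2 →L[ℂ] Ell2) (E : ℂ) - H)
      ↔ IsUnit (H - algebraMap ℂ (Ell2 →L[ℂ] Ell2) (E : ℂ)) := by
    rw [show algebraMap ℂ (Ell2 →L[ℂ] Ell2) (E : ℂ) - H
      = -(H - algebraMap ℂ (Ell2 →L[ℂ] Ell2) (E : ℂ)) by abel, IsUnit.neg_iff]
  rw [h1]
  have happ : ∀ v : Ell2, (H - algebraMap ℂ (Ell2 →L[ℂ] Ell2) (E : ℂ)) v = H v - (E : ℂ) • v := by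
    intro v
    rw [sub_apply, Algebra.algebraMap_eq_smul_one]
    rfl
  constructor
  · rintro ⟨B, hB⟩
    refine ⟨⟨H - algebraMap ℂ (Ell2 →L[ℂ] Ell2) (E : ℂ), B, ?_, ?_⟩, rfl⟩
    · apply ContinuousLinearMap.ext
      intro v
      change (H - algebraMap ℂ (Ell2 →L[ℂ] Ell2) (E : ℂ)) (B v) = v
      rw [happ]
      exact (hB v).2
    · apply ContinuousLinearMap.ext
      intro v
      change B ((H - algebraMap ℂ (Ell2 →L[ℂ] Ell2) (E : ℂ)) v) = v
      rw [happ]
      exact (hB v).1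
  · rintro ⟨⟨A, B, hAB, hBA⟩, hA⟩
    simp only at hA
    refine ⟨B, fun v => ⟨?_, ?_⟩⟩
    · rw [← happ, ← hA]
      have := congrArg (fun T : Ell2 →L[ℂ] Ell2 => T v) hBA
      exact this
    · rw [← happ, ← hA]
      have := congrArg (fun T : Ell2 →L[ℂ] Ell2 => T v) hAB
      exact this

/-- `S` and `T` are mapped onto each other by a `C^1` diffeomorphism between open neighbourhoods. -/
def Diffeomorphic (S T : Set ℝ) : Prop :=
  ∃ U V : Set ℝ, IsOpen U ∧ IsOpen V ∧ S ⊆ U ∧ T ⊆ V ∧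
    ∃ f g : ℝ → ℝ, ContDiffOn ℝ 1 f U ∧ ContDiffOn ℝ 1 g V ∧ Set.MapsTo f U V ∧ Set.MapsTo g V U ∧
      (∀ x ∈ U, g (f x) = x) ∧ (∀ y ∈ V, f (g y) = y) ∧ f '' S = T

/-- `T` is the image of `S` under a map that is Lipschitz on `S`. -/
def LipschitzImage (S T : Set ℝ) : Prop :=
  ∃ (K : NNReal) (g : ℝ → ℝ), LipschitzOnWith K g S ∧ g '' S = T

/-- `α` and `β` are irrationals in `(0,1)`, the first continued fraction digits are 6 for `α` and
1 for `β`, all other digits agree. -/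
def SixOneSameTail (α β : ℝ) : Prop :=
  Irrational α ∧ Irrational β ∧ α ∈ Set.Ioo (0 : ℝ) 1 ∧ β ∈ Set.Ioo (0 : ℝ) 1 ∧
    ⌊1 / α⌋ = 6 ∧ ⌊1 / β⌋ = 1 ∧ Int.fract (1 / α) = Int.fract (1 / β)

open Pool.Agent.Hhelper97.Sturm in
lemma realSpectrum_eq {lam γ : ℝ} (hlam : 0 ≤ lam) {H : Op}
    (hH : IsSturmian lam γ 0 H) : realSpectrum H = specSet (Va lam γ) := by
  have hpot : ∀ n : ℤ, potential lam γ 0 n = Va lam γ n := by
    intro n
    unfold potential Va
    rw [add_zero]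
    have h1 := Int.fract_lt_one ((n : ℝ) * γ)
    by_cases h : 1 - γ ≤ Int.fract ((n : ℝ) * γ)
    · rw [if_pos (Set.mem_Ico.mpr ⟨h, h1⟩), if_pos h, mul_one]
    · rw [if_neg (fun h' => h (Set.mem_Ico.mp h').1), if_neg h, mul_zero]
  have hHV : H = HV (Va lam γ) (Va_bound lam γ hlam) := by
    ext u n
    have h := hH u n
    rw [hpot n] at h
    exact h
  ext E
  rw [mem_realSpectrum, hHV]
  exact (mem_specSet_iff (Va lam γ) (Va_bound lam γ hlam) E).symm

/-- The result. -/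
theorem result (lam : ℝ) (hlam : 4 < lam) :
    (∀ γ θ : ℝ, ∃! H : Op, IsSturmian lam γ θ H) ∧
    ∃ α β : ℝ, SixOneSameTail α β ∧
      ∀ Hα Hβ : Op, IsSturmian lam α 0 Hα → IsSturmian lam β 0 Hβ →
        ¬ LipschitzImage (realSpectrum Hβ) (realSpectrum Hα) ∧
        ¬ Diffeomorphic (realSpectrum Hα) (realSpectrum Hβ) := by
  classical
  have hlam0 : 0 ≤ lam := by linarith
  have hbd : ∀ (γ θ : ℝ) (n : ℤ), |potential lam γ θ n| ≤ lam := by
    intro γ θ n
    unfold potential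
    split_ifs
    · rw [abs_of_nonneg hlam0]
    · simpa using hlam0
  have huniq : ∀ (γ θ : ℝ) (H : Op), IsSturmian lam γ θ H →
      H = Pool.Agent.Hhelper97.Sturm.HV (potential lam γ θ) (hbd γ θ) := by
    intro γ θ H hH
    ext u n
    exact hH u n
  refine ⟨fun γ θ => ⟨Pool.Agent.Hhelper97.Sturm.HV (potential lam γ θ) (hbd γ θ),
    fun u n => Pool.Agent.Hhelper97.Sturm.HV_apply _ _ u n, fun H hH => huniq γ θ H hH⟩, ?_⟩
  obtain ⟨c, hc, hmain⟩ := Pool.Agent.Hhelper97.Sturm.exists_tail hlam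
  have hrep : ∀ (a : ℕ), 1 ≤ a → ∀ i, 1 ≤ Pool.Agent.Hhelper97.Sturm.rep a c i := by
    intro a ha i
    unfold Pool.Agent.Hhelper97.Sturm.rep
    split_ifs
    · exact ha
    · exact hc i
  have ha := hrep 6 (by norm_num)
  have hb := hrep 1 (by norm_num)
  set α : ℝ := Pool.Agent.Hhelper97.Sturm.cfv (Pool.Agent.Hhelper97.Sturm.rep 6 c) with hα
  set β : ℝ := Pool.Agent.Hhelper97.Sturm.cfv (Pool.Agent.Hhelper97.Sturm.rep 1 c) with hβ
  set ξ : ℝ := Pool.Agent.Hhelper97.Sturm.cfv (fun i => c (i + 1)) with hξ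
  have hξmem := Pool.Agent.Hhelper97.Sturm.cfv_mem (fun i => c (i + 1)) (fun i => hc _)
  have hα1 : α = 1 / (((6 : ℕ) : ℝ) + ξ) := by
    rw [hα, Pool.Agent.Hhelper97.Sturm.cfv_shift _ ha]
    rfl
  have hβ1 : β = 1 / (((1 : ℕ) : ℝ) + ξ) := by
    rw [hβ, Pool.Agent.Hhelper97.Sturm.cfv_shift _ hb]
    rfl
  have hi1 : 1 / α = 6 + ξ := by rw [hα1, one_div_one_div]; norm_num
  have hi2 : 1 / β = 1 + ξ := by rw [hβ1, one_div_one_div]; norm_num
  refine ⟨α, β, ⟨Pool.Agent.Hhelper97.Sturm.irrational_cfv _ ha,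
    Pool.Agent.Hhelper97.Sturm.irrational_cfv _ hb, Pool.Agent.Hhelper97.Sturm.cfv_mem _ ha,
    Pool.Agent.Hhelper97.Sturm.cfv_mem _ hb, ?_, ?_, ?_⟩, ?_⟩
  · rw [hi1, Int.floor_eq_iff]
    have h1 := hξmem.1
    have h2 := hξmem.2
    push_cast
    constructor <;> linarith
  · rw [hi2, Int.floor_eq_iff]
    have h1 := hξmem.1
    have h2 := hξmem.2
    push_cast
    constructor <;> linarith
  · rw [hi1, hi2, add_comm (6 : ℝ) ξ, add_comm (1 : ℝ) ξ, Int.fract_add_ofNat, Int.fract_add_one]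
  · intro Hα Hβ hHα hHβ
    have eα : realSpectrum Hα = Pool.Agent.Hhelper97.Sturm.Sp lam
        (Pool.Agent.Hhelper97.Sturm.rep 6 c) := realSpectrum_eq hlam0 hHα
    have eβ : realSpectrum Hβ = Pool.Agent.Hhelper97.Sturm.Sp lam
        (Pool.Agent.Hhelper97.Sturm.rep 1 c) := realSpectrum_eq hlam0 hHβ
    have hcomp := Pool.Agent.Hhelper97.Sturm.isCompact_Sp hlam0 hb
    have hLip : ∀ (K : NNReal) (g : ℝ → ℝ), LipschitzOnWith K g (realSpectrum Hβ) →
          g '' realSpectrum Hβ ≠ realSpectrum Hα := by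
      intro K g hK
      rw [eα, eβ]
      rw [eβ] at hK
      refine hmain g K K.2 ?_
      intro y hy y' hy'
      have := hK.dist_le_mul y hy y' hy'
      rwa [Real.dist_eq, Real.dist_eq] at this
    refine ⟨fun ⟨K, g, hK, hg⟩ => hLip K g hK hg, ?_⟩
    rintro ⟨U₁, U₂, hU₁, hU₂, hs1, hs2, f, g, hf, hg, hfm, hgm, hgf, hfg, himg⟩
    have hloc : LocallyLipschitzOn (realSpectrum Hβ) g := by
      intro x hx
      have hxU : x ∈ U₂ := hs2 hx
      have hgx : ContDiffAt ℝ 1 g x := hg.contDiffAt (hU₂.mem_nhds hxU)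
      obtain ⟨K, t, ht, hK⟩ := hgx.exists_lipschitzOnWith
      exact ⟨K, t, mem_nhdsWithin_of_mem_nhds ht, hK⟩
    obtain ⟨K, hK⟩ := hloc.exists_lipschitzOnWith_of_compact (by rw [eβ]; exact hcomp)
    apply hLip K g hK
    rw [← himg, Set.image_image]
    ext x
    constructor
    · rintro ⟨z, hz, rfl⟩
      change g (f z) ∈ _
      rw [hgf z (hs1 hz)]
      exact hz
    · intro hx
      exact ⟨x, hx, hgf x (hs1 hx)⟩

end Pool.Agent.Results.MP_8e2a40_mp.LargeCoupling
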